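import Pool.Agent.N656.LL.Link

set_option autoImplicit false
set_option linter.unusedSectionVars false

/-! Ratios, tails and bound functions. -/

open Filter Topology Finset

namespace Pool.Agent.N656.LL

open Pool.Agent.R414.DN Pool.Agent.R414.DU

namespace Data

variable (D : Data)

lemma N_nonneg (A : Set (ℤ × ℤ)) (H : ℕ) : 0 ≤ D.N A H := Nat.cast_nonneg _

lemma lim_set (A : Set (ℤ × ℤ)) :
    Tendsto (fun H : ℕ => D.N A H / (H : ℝ) ^ D.n) atTop (𝓝 (D.wt A)) := by
  rw [Metric.tendsto_nhds]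
  intro η hη
  filter_upwards [D.law (by positivity : 0 < η / 2)] with H hH
  rw [Real.dist_eq]
  have := hH A
  linarith

lemma wt_univ_pos : 0 < D.wt Set.univ := D.wt_pos (Set.mem_univ (0, 0))

/-- ratios, uniformly -/
theorem ratio {ε : ℝ} (hε : 0 < ε) : ∀ᶠ H : ℕ in atTop, ∀ A : Set (ℤ × ℤ),
    |D.N A H / D.N Set.univ H - D.wt A / D.wt Set.univ| ≤ ε := by
  have hc := D.wt_univ_pos
  obtain ⟨c, hcd⟩ : ∃ c, c = D.wt Set.univ := ⟨_, rfl⟩
  rw [← hcd] at hc
  obtain ⟨η, hη, hη1, hη2⟩ : ∃ η : ℝ, 0 < η ∧ η ≤ c / 2 ∧ 4 * η ≤ ε * c := by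
    refine ⟨min (c / 2) (ε * c / 4), by positivity, min_le_left _ _, ?_⟩
    have := min_le_right (c / 2) (ε * c / 4)
    linarith
  filter_upwards [D.law hη, eventually_ge_atTop 1] with H hH hH1 A
  have hX : (0 : ℝ) < (H : ℝ) ^ D.n := by
    have : (0 : ℝ) < H := by exact_mod_cast hH1
    positivity
  obtain ⟨a, ha⟩ : ∃ a, a = D.N A H / (H : ℝ) ^ D.n := ⟨_, rfl⟩
  obtain ⟨u, hu⟩ : ∃ u, u = D.N Set.univ H / (H : ℝ) ^ D.n := ⟨_, rfl⟩
  have h1 := hH A
  have h2 := hH Set.univ
  rw [← ha] at h1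
  rw [← hu, ← hcd] at h2
  have h3 : D.N A H / D.N Set.univ H = a / u := by
    rw [ha, hu, div_div_div_cancel_right₀ hX.ne']
  rw [h3, ← hcd]
  have h1' := abs_le.1 h1
  have h2' := abs_le.1 h2
  have hw0 := D.wt_nonneg A
  have hw1 : D.wt A ≤ c := by
    rw [hcd]
    exact D.wt_mono (Set.subset_univ A)
  have hu0 : c / 2 ≤ u := by linarith [h2'.1]
  have hu1 : 0 < u := by linarith
  have e1 : a / u - D.wt A / c = ((a - D.wt A) * c + D.wt A * (c - u)) / (u * c) := by
    field_simp
    ring
  rw [e1, abs_div, abs_of_pos (by positivity : 0 < u * c), div_le_iff₀ (by positivity)]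
  calc |(a - D.wt A) * c + D.wt A * (c - u)| ≤ |(a - D.wt A) * c| + |D.wt A * (c - u)| :=
        abs_add_le _ _
    _ = |a - D.wt A| * c + D.wt A * |c - u| := by
        rw [abs_mul, abs_mul, abs_of_pos hc, abs_of_nonneg hw0]
    _ ≤ η * c + c * η := by
        have h4 : |c - u| ≤ η := by rw [abs_sub_comm]; exact h2
        gcongr
    _ ≤ ε * (u * c) := by nlinarith

/-- two zeros are rare among the members with a zero -/
theorem two_ratio : Tendsto (fun H : ℕ => D.N2 H / D.N Set.univ H) atTop (𝓝 0) := by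
  have h1 := D.two_rare.div (D.lim_set Set.univ) D.wt_univ_pos.ne'
  rw [zero_div] at h1
  refine h1.congr' ?_
  filter_upwards [eventually_ge_atTop 1] with H hH1
  have hX : (0 : ℝ) < (H : ℝ) ^ D.n := by
    have : (0 : ℝ) < H := by exact_mod_cast hH1
    positivity
  simp only [Pi.div_apply]
  rw [div_div_div_cancel_right₀ hX.ne']

/-- **Bound functions.** -/
theorem bound_iff (B : ℕ → ℕ) :
    Tendsto (fun H : ℕ => D.N (big (B H)) H / D.N Set.univ H) atTop (𝓝 0) ↔
      Tendsto B atTop atTop := by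
  have hc := D.wt_univ_pos
  constructor
  · intro h
    rw [tendsto_atTop]
    intro T
    have h1 : 0 < D.wt (big T) := by
      apply D.wt_pos (P := ((T : ℤ) + 1, 0))
      show T < sz ((T : ℤ) + 1, 0)
      unfold sz
      omega
    obtain ⟨q, hq⟩ : ∃ q, q = D.wt (big T) / D.wt Set.univ := ⟨_, rfl⟩
    have hq0 : 0 < q := by rw [hq]; positivity
    have h2 : ∀ᶠ H : ℕ in atTop, D.N (big (B H)) H / D.N Set.univ H < q / 2 := by
      have h3 := h.eventually (gt_mem_nhds (by positivity : (0 : ℝ) < q / 2))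
      exact h3
    filter_upwards [h2, D.ratio (by positivity : 0 < q / 2)] with H h3 h4
    by_contra h5
    rw [not_le] at h5
    have h6 := (abs_le.1 (h4 (big T))).1
    rw [← hq] at h6
    have h7 : D.N (big T) H ≤ D.N (big (B H)) H := by
      apply D.N_mono
      intro P hP
      have hP' : T < sz P := hP
      show B H < sz P
      omega
    have h8 : D.N (big T) H / D.N Set.univ H ≤ D.N (big (B H)) H / D.N Set.univ H := by
      have := D.N_nonneg Set.univ H
      gcongr
    linarith
  · intro h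
    rw [Metric.tendsto_nhds]
    intro η hη
    obtain ⟨T, hT⟩ := D.exists_T (by positivity : 0 < D.wt Set.univ * (η / 4))
    filter_upwards [h.eventually (eventually_ge_atTop T), D.ratio (by positivity : 0 < η / 4)]
      with H h1 h2
    have h3 : D.N (big (B H)) H ≤ D.N (big T) H := by
      apply D.N_mono
      intro P hP
      have hP' : B H < sz P := hP
      show T < sz P
      omega
    have h4 : D.N (big (B H)) H / D.N Set.univ H ≤ D.N (big T) H / D.N Set.univ H := by
      have := D.N_nonneg Set.univ H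
      gcongr
    have h5 := (abs_le.1 (h2 (big T))).2
    have h6 : D.wt (big T) / D.wt Set.univ ≤ η / 4 := by
      rw [div_le_iff₀ hc]
      have := D.wt_tail T
      linarith
    have h7 : 0 ≤ D.N (big (B H)) H / D.N Set.univ H :=
      div_nonneg (D.N_nonneg _ _) (D.N_nonneg _ _)
    rw [Real.dist_eq, sub_zero, abs_of_nonneg h7]
    linarith

end Data

/-- the lower bound for the tail -/
lemma wt_lower {e : ℕ} (he : 9 ≤ e) {φ : MvPolynomial (Fin 2) ℤ}
    (hφ : φ.IsHomogeneous (e + 1)) (hirr : Irreducible (MvPolynomial.map (Int.castRingHom ℚ) φ))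
    {T : ℕ} (hT : 1 ≤ T) :
    1 / (2 * K1 e * (T : ℝ) ^ (e - 2)) ≤ (dat he hφ hirr).wt (Data.big T) := by
  classical
  have h0 := K1_pos e
  have hT' : (1 : ℝ) ≤ T := by exact_mod_cast hT
  obtain ⟨H₀, h⟩ := lower_tail (by omega : 2 ≤ e) φ hT
  have h1 := (dat he hφ hirr).lim_set (Data.big T)
  refine ge_of_tendsto h1 ?_
  filter_upwards [eventually_ge_atTop H₀, eventually_ge_atTop 1] with H hH hH1
  have hH0 : (0 : ℝ) < H := by exact_mod_cast hH1
  have h2 := h H hH ((ibox ↥(I e) H).filter fun a => ∃ x y : ℤ,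
      MvPolynomial.eval ![x, y] (φ + poly a) = 0 ∧ T < max x.natAbs y.natAbs)
      (fun r hr hz => mem_filter.2 ⟨hr, hz⟩)
  have h3 : (dat he hφ hirr).N (Data.big T) H =
      (((ibox ↥(I e) H).filter fun a => ∃ x y : ℤ,
      MvPolynomial.eval ![x, y] (φ + poly a) = 0 ∧ T < max x.natAbs y.natAbs).card : ℝ) := by
    unfold Data.N
    rw [← Set.ncard_coe_finset]
    congr 2
    ext a
    simp only [coe_filter, Set.mem_ofPred_eq]
    constructor
    · rintro ⟨h3, P, h4, h5⟩
      exact ⟨h3, P.1, P.2, h5, h4⟩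
    · rintro ⟨h3, x, y, h5, h4⟩
      exact ⟨h3, (x, y), h4, h5⟩
  have hn : (dat he hφ hirr).n = MM e - 1 := by
    have h4 : (dat he hφ hirr).n = Fintype.card (J (e + 1)) := rfl
    have := card_J e
    rw [h4]
    omega
  rw [h3, hn, le_div_iff₀ (by positivity)]
  refine le_trans ?_ h2
  have h5 : (H : ℝ) ^ (MM e - 1) ≤ (2 * (H : ℝ) + 1) ^ (MM e - 1) := by
    apply pow_le_pow_left₀ hH0.le
    linarith
  gcongr

open Polynomial in
/-- an irreducible form of degree `d` -/
lemma exists_form {d : ℕ} (hd : 1 ≤ d) : ∃ φ : MvPolynomial (Fin 2) ℤ, φ.IsHomogeneous d ∧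
    Irreducible (MvPolynomial.map (Int.castRingHom ℚ) φ) := by
  refine ⟨MvPolynomial.X 0 ^ d - MvPolynomial.C 2 * MvPolynomial.X 1 ^ d, ?_, ?_⟩
  · apply MvPolynomial.IsHomogeneous.sub
    · exact MvPolynomial.isHomogeneous_X_pow _ _
    · have h1 := (MvPolynomial.isHomogeneous_C (Fin 2) (2 : ℤ)).mul
        (MvPolynomial.isHomogeneous_X_pow (R := ℤ) (1 : Fin 2) d)
      rwa [zero_add] at h1
  · have hmap : MvPolynomial.map (Int.castRingHom ℚ)
        (MvPolynomial.X 0 ^ d - MvPolynomial.C 2 * MvPolynomial.X 1 ^ d) =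
        (MvPolynomial.X 0 ^ d - MvPolynomial.C 2 * MvPolynomial.X 1 ^ d :
          MvPolynomial (Fin 2) ℚ) := by
      rw [map_sub, map_mul, map_pow, map_pow, MvPolynomial.map_X, MvPolynomial.map_X,
        MvPolynomial.map_C]
      rfl
    have hev : MvPolynomial.aeval ![(X : ℚ[X]), 1]
        (MvPolynomial.X 0 ^ d - MvPolynomial.C 2 * MvPolynomial.X 1 ^ d :
          MvPolynomial (Fin 2) ℚ) = X ^ d - C 2 := by
      simp
    rw [hmap]
    apply irr_of_dehom hd
    · apply MvPolynomial.IsHomogeneous.sub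
      · exact MvPolynomial.isHomogeneous_X_pow _ _
      · have h1 := (MvPolynomial.isHomogeneous_C (Fin 2) (2 : ℚ)).mul
          (MvPolynomial.isHomogeneous_X_pow (R := ℚ) (1 : Fin 2) d)
        rwa [zero_add] at h1
    · rw [hev]
      have h1 : Irreducible (X ^ d - C 2 : ℤ[X]) := by
        apply irreducible_of_eisenstein_criterion (P := Ideal.span {(2 : ℤ)})
        · rw [Ideal.span_singleton_prime (by norm_num)]
          exact Int.prime_two
        · rw [leadingCoeff_X_pow_sub_C (by omega), Ideal.mem_span_singleton]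
          norm_num
        · intro n hn
          rw [degree_X_pow_sub_C (by omega)] at hn
          have hn' : n < d := by exact_mod_cast hn
          rw [coeff_sub, coeff_X_pow, if_neg (by omega), coeff_C, zero_sub]
          split_ifs
          · exact neg_mem (Ideal.mem_span_singleton_self _)
          · simp
        · rw [degree_X_pow_sub_C (by omega)]
          exact_mod_cast hd
        · rw [coeff_sub, coeff_X_pow, if_neg (by omega), coeff_C, if_pos rfl, zero_sub, pow_two,
            Ideal.span_singleton_mul_span_singleton, Ideal.mem_span_singleton]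
          norm_num
        · exact (monic_X_pow_sub_C _ (by omega)).isPrimitive
      have h2 := (IsPrimitive.Int.irreducible_iff_irreducible_map_cast
        (monic_X_pow_sub_C (2 : ℤ) (by omega : d ≠ 0)).isPrimitive).1 h1
      have h3 : (X ^ d - C 2 : ℤ[X]).map (Int.castRingHom ℚ) = X ^ d - C 2 := by
        rw [Polynomial.map_sub, Polynomial.map_pow, map_X, map_C]
        rfl
      rwa [h3] at h2
    · rw [hev]
      exact natDegree_X_pow_sub_C

end Pool.Agent.N656.LL
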