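import Mathlib

set_option autoImplicit false
set_option linter.unusedSectionVars false

/-! From the counts at the single points to the limit law. -/

open Filter Topology Finset

namespace Pool.Agent.N656.LL

/-- lower bound for the union, sum version -/
lemma bonf {α β : Type} [DecidableEq α] [DecidableEq β] (P : Finset α)
    (A : α → Finset β) (M : ℝ)
    (hM : ∀ p ∈ P, ∀ q ∈ P, p ≠ q → ((A p ∩ A q).card : ℝ) ≤ M) (hM0 : 0 ≤ M) :
    ∑ p ∈ P, ((A p).card : ℝ) - (P.card : ℝ) ^ 2 * M ≤ ((P.biUnion A).card : ℝ) := by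
  classical
  obtain ⟨B, hB⟩ : ∃ B : α → Finset β, B = fun p => A p \ (P.erase p).biUnion A := ⟨_, rfl⟩
  have hsub : P.biUnion B ⊆ P.biUnion A := by
    apply biUnion_mono
    intro p _
    rw [hB]
    exact sdiff_subset
  have hdisj : ((P : Finset α) : Set α).PairwiseDisjoint B := by
    intro p hp q hq hpq
    rw [Function.onFun, Finset.disjoint_left]
    intro x hx hx'
    simp only [hB] at hx hx'
    rw [Finset.mem_sdiff] at hx hx'
    apply hx.2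
    rw [mem_biUnion]
    exact ⟨q, mem_erase.2 ⟨Ne.symm hpq, hq⟩, hx'.1⟩
  have h1 : ((P.biUnion B).card : ℝ) ≤ (P.biUnion A).card := by
    exact_mod_cast card_le_card hsub
  refine le_trans ?_ h1
  rw [card_biUnion hdisj, Nat.cast_sum]
  have h2 : ∀ p ∈ P, ((A p).card : ℝ) - (P.card : ℝ) * M ≤ ((B p).card : ℝ) := by
    intro p hp
    have h3 : A p ⊆ B p ∪ (P.erase p).biUnion fun q => A p ∩ A q := by
      intro x hx
      simp only [hB]
      rw [mem_union, Finset.mem_sdiff, mem_biUnion, mem_biUnion]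
      by_cases h4 : ∃ a ∈ P.erase p, x ∈ A a
      · obtain ⟨q, hq, hxq⟩ := h4
        exact Or.inr ⟨q, hq, mem_inter.2 ⟨hx, hxq⟩⟩
      · exact Or.inl ⟨hx, h4⟩
    have h4 : ((A p).card : ℝ) ≤ (B p).card + ∑ q ∈ P.erase p, ((A p ∩ A q).card : ℝ) := by
      exact_mod_cast (card_le_card h3).trans ((card_union_le _ _).trans
        (add_le_add le_rfl card_biUnion_le))
    have h5 : ∑ q ∈ P.erase p, ((A p ∩ A q).card : ℝ) ≤ (P.card : ℝ) * M := by
      calc ∑ q ∈ P.erase p, ((A p ∩ A q).card : ℝ) ≤ ∑ _q ∈ P.erase p, M := by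
            refine sum_le_sum fun q hq => ?_
            rw [mem_erase] at hq
            exact hM p hp q hq.2 (Ne.symm hq.1)
        _ = ((P.erase p).card : ℝ) * M := by rw [sum_const, nsmul_eq_mul]
        _ ≤ (P.card : ℝ) * M := by
            apply mul_le_mul_of_nonneg_right _ hM0
            exact_mod_cast card_le_card (erase_subset _ _)
    linarith
  calc ∑ p ∈ P, ((A p).card : ℝ) - (P.card : ℝ) ^ 2 * M
      = ∑ p ∈ P, (((A p).card : ℝ) - (P.card : ℝ) * M) := by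
        rw [sum_sub_distrib, sum_const, nsmul_eq_mul]
        ring
    _ ≤ _ := sum_le_sum h2

/-- the size of a point -/
def sz (P : ℤ × ℤ) : ℕ := max P.1.natAbs P.2.natAbs

/-- the points of size at most `T` -/
noncomputable def bx (T : ℕ) : Finset (ℤ × ℤ) := Icc (-(T : ℤ)) T ×ˢ Icc (-(T : ℤ)) T

lemma mem_bx {T : ℕ} {P : ℤ × ℤ} : P ∈ bx T ↔ sz P ≤ T := by
  unfold bx sz
  rw [mem_product, mem_Icc, mem_Icc]
  omega

/-- the data of the counting problem -/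
structure Data where
  α : Type
  dec : DecidableEq α
  S : ℕ → Finset α
  Z : α → ℤ × ℤ → Prop
  v : ℤ × ℤ → ℝ
  n : ℕ
  k : ℕ
  K : ℝ
  hn : 1 ≤ n
  hk : 1 ≤ k
  hK : 0 ≤ K
  hv : ∀ P, 0 < v P
  lim : ∀ P, Tendsto (fun H : ℕ => (Set.ncard {a | a ∈ S H ∧ Z a P} : ℝ) / (H : ℝ) ^ n) atTop
    (𝓝 (v P))
  two : ∀ P Q, P ≠ Q → ∀ H : ℕ, (Set.ncard {a | a ∈ S H ∧ Z a P ∧ Z a Q} : ℝ) ≤
    (2 * (H : ℝ) + 1) ^ (n - 1)
  tail : ∀ T : ℕ, ∀ᶠ H : ℕ in atTop, (Set.ncard {a | a ∈ S H ∧ ∃ P, T < sz P ∧ Z a P} : ℝ) ≤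
    K / ((T : ℝ) + 1) ^ k * (2 * (H : ℝ) + 1) ^ n

namespace Data

variable (D : Data)

lemma fin (H : ℕ) (p : D.α → Prop) : {a | a ∈ D.S H ∧ p a}.Finite :=
  (D.S H).finite_toSet.subset fun _ h => h.1

/-- the number of members with a zero in `A` -/
noncomputable def N (A : Set (ℤ × ℤ)) (H : ℕ) : ℝ :=
  (Set.ncard {a | a ∈ D.S H ∧ ∃ P ∈ A, D.Z a P} : ℝ)

lemma N_mono {A B : Set (ℤ × ℤ)} (h : A ⊆ B) (H : ℕ) : D.N A H ≤ D.N B H := by
  unfold N
  have h1 : {a | a ∈ D.S H ∧ ∃ P ∈ A, D.Z a P} ⊆ {a | a ∈ D.S H ∧ ∃ P ∈ B, D.Z a P} := by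
    rintro a ⟨ha, P, hP, hz⟩
    exact ⟨ha, P, h hP, hz⟩
  exact_mod_cast Set.ncard_le_ncard h1 (D.fin H _)

/-- upper and lower bound for finite sets -/
lemma N_finset (F : Finset (ℤ × ℤ)) (H : ℕ) :
    D.N F H ≤ ∑ P ∈ F, (Set.ncard {a | a ∈ D.S H ∧ D.Z a P} : ℝ) ∧
    ∑ P ∈ F, (Set.ncard {a | a ∈ D.S H ∧ D.Z a P} : ℝ) -
      (F.card : ℝ) ^ 2 * (2 * (H : ℝ) + 1) ^ (D.n - 1) ≤ D.N F H := by
  classical
  have e1 : ∀ (p : D.α → Prop) [DecidablePred p],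
      Set.ncard {a | a ∈ D.S H ∧ p a} = ((D.S H).filter p).card := by
    intro p _
    rw [← Set.ncard_coe_finset]
    congr 1
    ext a
    simp
  have e2 : (D.S H).filter (fun a => ∃ P, P ∈ F ∧ D.Z a P) =
      F.biUnion fun P => (D.S H).filter fun a => D.Z a P := by
    ext a
    simp only [mem_filter, mem_biUnion]
    constructor
    · rintro ⟨h1, P, h2, h3⟩
      exact ⟨P, h2, h1, h3⟩
    · rintro ⟨P, h2, h1, h3⟩
      exact ⟨h1, P, h2, h3⟩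
  have e3 : D.N F H = ((F.biUnion fun P => (D.S H).filter fun a => D.Z a P).card : ℝ) := by
    rw [← e2, ← e1]
    rfl
  have e4 : ∀ P, (Set.ncard {a | a ∈ D.S H ∧ D.Z a P} : ℝ) =
      (((D.S H).filter fun a => D.Z a P).card : ℝ) := fun P => by rw [e1]
  rw [e3]
  simp only [e4]
  constructor
  · exact_mod_cast card_biUnion_le
  · refine bonf F _ _ ?_ (by positivity)
    intro P _ Q _ hPQ
    have h1 := D.two P Q hPQ H
    rw [e1 (fun a => D.Z a P ∧ D.Z a Q)] at h1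
    refine le_trans ?_ h1
    have : ((D.S H).filter fun a => D.Z a P) ∩ ((D.S H).filter fun a => D.Z a Q) ⊆
        (D.S H).filter fun a => D.Z a P ∧ D.Z a Q := by
      intro a ha
      rw [mem_inter, mem_filter, mem_filter] at ha
      rw [mem_filter]
      exact ⟨ha.1.1, ha.1.2, ha.2.2⟩
    exact_mod_cast card_le_card this

lemma N_union (A B : Set (ℤ × ℤ)) (H : ℕ) : D.N (A ∪ B) H ≤ D.N A H + D.N B H := by
  unfold N
  have h1 : {a | a ∈ D.S H ∧ ∃ P ∈ A ∪ B, D.Z a P} ⊆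
      {a | a ∈ D.S H ∧ ∃ P ∈ A, D.Z a P} ∪ {a | a ∈ D.S H ∧ ∃ P ∈ B, D.Z a P} := by
    rintro a ⟨ha, P, hP, hz⟩
    rcases hP with hP | hP
    · exact Or.inl ⟨ha, P, hP, hz⟩
    · exact Or.inr ⟨ha, P, hP, hz⟩
  exact_mod_cast (Set.ncard_le_ncard h1 ((D.fin H _).union (D.fin H _))).trans
    (Set.ncard_union_le _ _)

/-- the powers of `2 H + 1` against those of `H` -/
lemma pow_lim (n : ℕ) : Tendsto (fun H : ℕ => (2 * (H : ℝ) + 1) ^ n / (H : ℝ) ^ n) atTop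
    (𝓝 (2 ^ n)) := by
  have h1 : Tendsto (fun H : ℕ => 2 + 1 / (H : ℝ)) atTop (𝓝 (2 + 0)) :=
    tendsto_const_nhds.add tendsto_one_div_atTop_nhds_zero_nat
  rw [add_zero] at h1
  refine (h1.pow n).congr' ?_
  filter_upwards [eventually_ge_atTop 1] with H hH
  have : (0 : ℝ) < H := by exact_mod_cast hH
  rw [← div_pow]
  congr 1
  field_simp

lemma pow_lim' {n : ℕ} (hn : 1 ≤ n) :
    Tendsto (fun H : ℕ => (2 * (H : ℝ) + 1) ^ (n - 1) / (H : ℝ) ^ n) atTop (𝓝 0) := by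
  obtain ⟨m, rfl⟩ : ∃ m, n = m + 1 := ⟨n - 1, by omega⟩
  rw [Nat.add_sub_cancel]
  have h1 := (pow_lim m).mul tendsto_one_div_atTop_nhds_zero_nat
  rw [mul_zero] at h1
  refine h1.congr fun H => ?_
  rw [pow_succ, div_mul_div_comm, mul_one]

/-- finite sets: the limit -/
lemma sum_lim (F : Finset (ℤ × ℤ)) :
    Tendsto (fun H : ℕ => (∑ P ∈ F, (Set.ncard {a | a ∈ D.S H ∧ D.Z a P} : ℝ)) / (H : ℝ) ^ D.n)
      atTop (𝓝 (∑ P ∈ F, D.v P)) := by
  simp only [sum_div]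
  exact tendsto_finsetSum _ fun P _ => D.lim P

/-- finite sets of large points have small weight -/
lemma finset_tail (T : ℕ) (F : Finset (ℤ × ℤ)) (hF : ∀ P ∈ F, T < sz P) :
    ∑ P ∈ F, D.v P ≤ D.K * 2 ^ D.n / ((T : ℝ) + 1) ^ D.k := by
  have h1 := D.sum_lim F
  have h2 : Tendsto (fun H : ℕ => D.K / ((T : ℝ) + 1) ^ D.k *
      ((2 * (H : ℝ) + 1) ^ D.n / (H : ℝ) ^ D.n) + (F.card : ℝ) ^ 2 *
      ((2 * (H : ℝ) + 1) ^ (D.n - 1) / (H : ℝ) ^ D.n)) atTop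
      (𝓝 (D.K / ((T : ℝ) + 1) ^ D.k * 2 ^ D.n + (F.card : ℝ) ^ 2 * 0)) :=
    ((pow_lim D.n).const_mul _).add ((pow_lim' D.hn).const_mul _)
  have h3 : D.K * 2 ^ D.n / ((T : ℝ) + 1) ^ D.k =
      D.K / ((T : ℝ) + 1) ^ D.k * 2 ^ D.n + (F.card : ℝ) ^ 2 * 0 := by ring
  rw [h3]
  refine le_of_tendsto_of_tendsto h1 h2 ?_
  filter_upwards [D.tail T, eventually_ge_atTop 1] with H hH hH1
  have hH0 : (0 : ℝ) < H := by exact_mod_cast hH1
  have h4 := (D.N_finset F H).2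
  have h5 : D.N F H ≤ (Set.ncard {a | a ∈ D.S H ∧ ∃ P, T < sz P ∧ D.Z a P} : ℝ) := by
    unfold N
    have h6 : {a | a ∈ D.S H ∧ ∃ P ∈ (F : Set (ℤ × ℤ)), D.Z a P} ⊆
        {a | a ∈ D.S H ∧ ∃ P, T < sz P ∧ D.Z a P} := by
      rintro a ⟨ha, P, hP, hz⟩
      exact ⟨ha, P, hF P (mem_coe.1 hP), hz⟩
    exact_mod_cast Set.ncard_le_ncard h6 (D.fin H _)
  rw [← mul_div_assoc, ← mul_div_assoc, ← add_div]
  gcongr
  linarith

lemma summable : Summable D.v := by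
  apply summable_of_sum_le (c := D.v 0 + D.K * 2 ^ D.n / (((0 : ℕ) : ℝ) + 1) ^ D.k)
    (fun P => (D.hv P).le)
  intro F
  classical
  have h1 := D.finset_tail 0 (F.erase 0) (by
    intro P hP
    rw [mem_erase] at hP
    unfold sz
    by_contra h
    apply hP.1
    apply Prod.ext
    · show P.1 = 0
      omega
    · show P.2 = 0
      omega)
  have h2 : ∑ P ∈ F, D.v P ≤ ∑ P ∈ insert 0 (F.erase 0), D.v P := by
    apply sum_le_sum_of_subset_of_nonneg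
    · intro P hP
      rw [mem_insert, mem_erase]
      tauto
    · intro P _ _
      exact (D.hv P).le
  rw [sum_insert (by simp)] at h2
  linarith

/-- the weight of a set -/
noncomputable def wt (A : Set (ℤ × ℤ)) : ℝ := ∑' P, A.indicator D.v P

lemma summable_ind (A : Set (ℤ × ℤ)) : Summable (A.indicator D.v) := D.summable.indicator A

lemma wt_nonneg (A : Set (ℤ × ℤ)) : 0 ≤ D.wt A :=
  tsum_nonneg fun P => Set.indicator_nonneg (fun P _ => (D.hv P).le) P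

lemma wt_mono {A B : Set (ℤ × ℤ)} (h : A ⊆ B) : D.wt A ≤ D.wt B := by
  unfold wt
  refine (D.summable_ind A).tsum_le_tsum (fun P => ?_) (D.summable_ind B)
  exact Set.indicator_le_indicator_of_subset h (fun P => (D.hv P).le) P

lemma wt_pos {A : Set (ℤ × ℤ)} {P : ℤ × ℤ} (h : P ∈ A) : 0 < D.wt A := by
  refine (D.summable_ind A).tsum_pos (fun Q => Set.indicator_nonneg (fun P _ => (D.hv P).le) Q) P ?_
  rw [Set.indicator_of_mem h]
  exact D.hv P

/-- large points -/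
def big (T : ℕ) : Set (ℤ × ℤ) := {P | T < sz P}

lemma wt_tail (T : ℕ) : D.wt (big T) ≤ D.K * 2 ^ D.n / ((T : ℝ) + 1) ^ D.k := by
  unfold wt
  refine Real.tsum_le_of_sum_le
    (fun P => Set.indicator_nonneg (fun P _ => (D.hv P).le) P) fun F => ?_
  classical
  have h1 := D.finset_tail T (F.filter fun P => T < sz P) (fun P hP => (mem_filter.1 hP).2)
  refine le_trans (le_of_eq ?_) h1
  rw [sum_filter]
  refine sum_congr rfl fun P _ => ?_
  by_cases hP : T < sz P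
  · rw [if_pos hP, Set.indicator_of_mem (show P ∈ big T from hP)]
  · rw [if_neg hP, Set.indicator_of_notMem (show P ∉ big T from hP)]

lemma wt_split (A : Set (ℤ × ℤ)) (T : ℕ) :
    ∃ F : Finset (ℤ × ℤ), F ⊆ bx T ∧ (F : Set (ℤ × ℤ)) = A ∩ (big T)ᶜ ∧
      D.wt A ≤ ∑ P ∈ F, D.v P + D.wt (big T) ∧ ∑ P ∈ F, D.v P ≤ D.wt A := by
  classical
  refine ⟨(bx T).filter fun P => P ∈ A, filter_subset _ _, ?_, ?_, ?_⟩
  · ext P
    simp only [coe_filter, mem_bx, Set.mem_ofPred_eq, Set.mem_inter_iff, Set.mem_compl_iff, big,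
      not_lt]
    tauto
  · unfold wt
    have h1 : ∑ P ∈ (bx T).filter (fun P => P ∈ A), D.v P =
        ∑' P, (((bx T).filter fun P => P ∈ A : Finset (ℤ × ℤ)) : Set (ℤ × ℤ)).indicator D.v P := by
      rw [← _root_.tsum_subtype, Finset.tsum_subtype']
    rw [h1, ← (D.summable_ind _).tsum_add (D.summable_ind _)]
    refine (D.summable_ind _).tsum_le_tsum (fun P => ?_) ((D.summable_ind _).add (D.summable_ind _))
    by_cases hA : P ∈ A
    · rw [Set.indicator_of_mem hA]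
      by_cases hT : P ∈ big T
      · rw [Set.indicator_of_mem hT]
        have := Set.indicator_nonneg (s := (((bx T).filter fun P => P ∈ A : Finset (ℤ × ℤ)) :
          Set (ℤ × ℤ))) (f := D.v) (fun P _ => (D.hv P).le) P
        linarith
      · have hm : P ∈ (((bx T).filter fun P => P ∈ A : Finset (ℤ × ℤ)) : Set (ℤ × ℤ)) := by
          rw [mem_coe, mem_filter, mem_bx]
          exact ⟨not_lt.1 hT, hA⟩
        rw [Set.indicator_of_mem hm, Set.indicator_of_notMem hT, add_zero]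
    · rw [Set.indicator_of_notMem hA]
      exact add_nonneg (Set.indicator_nonneg (fun P _ => (D.hv P).le) P)
        (Set.indicator_nonneg (fun P _ => (D.hv P).le) P)
  · unfold wt
    have h1 : ∑ P ∈ (bx T).filter (fun P => P ∈ A), D.v P =
        ∑ P ∈ (bx T).filter (fun P => P ∈ A), A.indicator D.v P := by
      refine sum_congr rfl fun P hP => ?_
      rw [Set.indicator_of_mem (mem_filter.1 hP).2]
    rw [h1]
    exact (D.summable_ind A).sum_le_tsum _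
      fun P _ => Set.indicator_nonneg (fun P _ => (D.hv P).le) P

/-- the tail bound in the form used below -/
lemma tail_eventually (T : ℕ) {η : ℝ} (hη : 0 < η) :
    ∀ᶠ H : ℕ in atTop, D.N (big T) H / (H : ℝ) ^ D.n ≤
      D.K * 2 ^ D.n / ((T : ℝ) + 1) ^ D.k + η := by
  have h2 : Tendsto (fun H : ℕ => D.K / ((T : ℝ) + 1) ^ D.k *
      ((2 * (H : ℝ) + 1) ^ D.n / (H : ℝ) ^ D.n)) atTop
      (𝓝 (D.K / ((T : ℝ) + 1) ^ D.k * 2 ^ D.n)) := (pow_lim D.n).const_mul _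
  have h3 := h2.eventually (eventually_le_nhds (b := D.K / ((T : ℝ) + 1) ^ D.k * 2 ^ D.n + η)
    (by linarith))
  filter_upwards [D.tail T, eventually_ge_atTop 1, h3] with H hH hH1 h4
  have hH0 : (0 : ℝ) < H := by exact_mod_cast hH1
  have h5 : D.N (big T) H = (Set.ncard {a | a ∈ D.S H ∧ ∃ P, T < sz P ∧ D.Z a P} : ℝ) := rfl
  have h6 : D.K * 2 ^ D.n / ((T : ℝ) + 1) ^ D.k = D.K / ((T : ℝ) + 1) ^ D.k * 2 ^ D.n := by ring
  rw [h5, h6]
  refine le_trans ?_ h4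
  rw [← mul_div_assoc]
  gcongr

lemma exists_T {η : ℝ} (hη : 0 < η) : ∃ T : ℕ, D.K * 2 ^ D.n / ((T : ℝ) + 1) ^ D.k ≤ η := by
  obtain ⟨T, hT⟩ := exists_nat_ge (D.K * 2 ^ D.n / η)
  refine ⟨T, ?_⟩
  have hT0 : (0 : ℝ) ≤ T := Nat.cast_nonneg T
  rw [div_le_iff₀ (by positivity)]
  rw [div_le_iff₀ hη] at hT
  have h1 : (T : ℝ) ≤ ((T : ℝ) + 1) ^ D.k := by
    calc (T : ℝ) ≤ ((T : ℝ) + 1) ^ 1 := by linarith
      _ ≤ ((T : ℝ) + 1) ^ D.k := pow_le_pow_right₀ (by linarith) D.hk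
  nlinarith

/-- **The limit law, uniformly in the set.** -/
theorem law {η : ℝ} (hη : 0 < η) : ∀ᶠ H : ℕ in atTop, ∀ A : Set (ℤ × ℤ),
    |D.N A H / (H : ℝ) ^ D.n - D.wt A| ≤ η := by
  classical
  obtain ⟨T, hT⟩ := D.exists_T (by positivity : 0 < η / 8)
  have ht := D.tail_eventually T (by positivity : 0 < η / 8)
  have hs : ∀ᶠ H : ℕ in atTop, ∀ P ∈ bx T,
      |(Set.ncard {a | a ∈ D.S H ∧ D.Z a P} : ℝ) / (H : ℝ) ^ D.n - D.v P| ≤
        η / (8 * ((bx T).card + 1)) := by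
    rw [Filter.eventually_all_finset]
    intro P _
    have h1 := D.lim P
    rw [Metric.tendsto_nhds] at h1
    have h2 := h1 (η / (8 * ((bx T).card + 1))) (by positivity)
    filter_upwards [h2] with H hH
    rw [Real.dist_eq] at hH
    exact hH.le
  have hp : ∀ᶠ H : ℕ in atTop, ((bx T).card : ℝ) ^ 2 *
      ((2 * (H : ℝ) + 1) ^ (D.n - 1) / (H : ℝ) ^ D.n) ≤ η / 8 := by
    have h1 := (pow_lim' D.hn).const_mul (((bx T).card : ℝ) ^ 2)
    rw [mul_zero] at h1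
    exact h1.eventually (eventually_le_nhds (by positivity))
  filter_upwards [ht, hs, hp, eventually_ge_atTop 1] with H h1 h2 h3 hH1 A
  have hH0 : (0 : ℝ) < H := by exact_mod_cast hH1
  have hX : (0 : ℝ) < (H : ℝ) ^ D.n := by positivity
  obtain ⟨F, hFT, hFA, hF1, hF2⟩ := D.wt_split A T
  have hFc : (F.card : ℝ) ≤ (bx T).card := by exact_mod_cast card_le_card hFT
  obtain ⟨g1, g2⟩ := D.N_finset F H
  obtain ⟨s, hs⟩ : ∃ s : ℝ, s = (∑ P ∈ F, (Set.ncard {a | a ∈ D.S H ∧ D.Z a P} : ℝ)) /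
    (H : ℝ) ^ D.n := ⟨_, rfl⟩
  have hsv : |s - ∑ P ∈ F, D.v P| ≤ η / 8 := by
    rw [hs, sum_div, ← sum_sub_distrib]
    refine (abs_sum_le_sum_abs _ _).trans ?_
    calc ∑ P ∈ F, |(Set.ncard {a | a ∈ D.S H ∧ D.Z a P} : ℝ) / (H : ℝ) ^ D.n - D.v P|
        ≤ ∑ _P ∈ F, η / (8 * ((bx T).card + 1)) := sum_le_sum fun P hP => h2 P (hFT hP)
      _ = (F.card : ℝ) * (η / (8 * ((bx T).card + 1))) := by rw [sum_const, nsmul_eq_mul]
      _ ≤ ((bx T).card + 1) * (η / (8 * ((bx T).card + 1))) := by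
          apply mul_le_mul_of_nonneg_right _ (by positivity)
          linarith
      _ = η / 8 := by field_simp
  have hNF1 : D.N F H / (H : ℝ) ^ D.n ≤ s := by
    rw [hs]
    gcongr
  have hNF2 : s - η / 8 ≤ D.N F H / (H : ℝ) ^ D.n := by
    have h4 : s - (F.card : ℝ) ^ 2 * ((2 * (H : ℝ) + 1) ^ (D.n - 1) / (H : ℝ) ^ D.n) ≤
        D.N F H / (H : ℝ) ^ D.n := by
      rw [hs, ← mul_div_assoc, ← sub_div]
      gcongr
    have h5 : (F.card : ℝ) ^ 2 * ((2 * (H : ℝ) + 1) ^ (D.n - 1) / (H : ℝ) ^ D.n) ≤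
        ((bx T).card : ℝ) ^ 2 * ((2 * (H : ℝ) + 1) ^ (D.n - 1) / (H : ℝ) ^ D.n) := by
      gcongr
    linarith
  have hN1 : D.N F H ≤ D.N A H := by
    apply D.N_mono
    rw [hFA]
    exact Set.inter_subset_left
  have hN2 : D.N A H ≤ D.N F H + D.N (big T) H := by
    refine le_trans (D.N_mono ?_ H) (D.N_union _ _ H)
    intro P hP
    by_cases hb : P ∈ big T
    · exact Or.inr hb
    · left
      rw [hFA]
      exact ⟨hP, hb⟩
  have hN1' : D.N F H / (H : ℝ) ^ D.n ≤ D.N A H / (H : ℝ) ^ D.n := by gcongr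
  have hN2' : D.N A H / (H : ℝ) ^ D.n ≤ D.N F H / (H : ℝ) ^ D.n +
      D.N (big T) H / (H : ℝ) ^ D.n := by
    rw [← add_div]
    gcongr
  have hb := D.wt_tail T
  have hsv' := abs_le.1 hsv
  rw [abs_le]
  constructor <;> linarith [hsv'.1, hsv'.2]

/-- the number of members with two zeros -/
noncomputable def N2 (H : ℕ) : ℝ :=
  (Set.ncard {a | a ∈ D.S H ∧ ∃ P Q, P ≠ Q ∧ D.Z a P ∧ D.Z a Q} : ℝ)

/-- **Two zeros are rare.** -/
theorem two_rare : Tendsto (fun H : ℕ => D.N2 H / (H : ℝ) ^ D.n) atTop (𝓝 0) := by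
  classical
  rw [Metric.tendsto_nhds]
  intro η hη
  obtain ⟨T, hT⟩ := D.exists_T (by positivity : 0 < η / 4)
  have ht := D.tail_eventually T (by positivity : 0 < η / 4)
  have hp : ∀ᶠ H : ℕ in atTop, ((bx T ×ˢ bx T).card : ℝ) *
      ((2 * (H : ℝ) + 1) ^ (D.n - 1) / (H : ℝ) ^ D.n) ≤ η / 4 := by
    have h1 := (pow_lim' D.hn).const_mul ((bx T ×ˢ bx T).card : ℝ)
    rw [mul_zero] at h1
    exact h1.eventually (eventually_le_nhds (by positivity))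
  filter_upwards [ht, hp, eventually_ge_atTop 1] with H h1 h3 hH1
  have hH0 : (0 : ℝ) < H := by exact_mod_cast hH1
  have hX : (0 : ℝ) < (H : ℝ) ^ D.n := by positivity
  have h4 : D.N2 H ≤ D.N (big T) H + ((bx T ×ˢ bx T).card : ℝ) *
      (2 * (H : ℝ) + 1) ^ (D.n - 1) := by
    have h5 : {a | a ∈ D.S H ∧ ∃ P Q, P ≠ Q ∧ D.Z a P ∧ D.Z a Q} ⊆
        {a | a ∈ D.S H ∧ ∃ P ∈ big T, D.Z a P} ∪
        ⋃ q ∈ (bx T ×ˢ bx T).filter (fun q => q.1 ≠ q.2),
          {a | a ∈ D.S H ∧ D.Z a q.1 ∧ D.Z a q.2} := by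
      rintro a ⟨ha, P, Q, hPQ, hP, hQ⟩
      by_cases hP1 : P ∈ big T
      · exact Or.inl ⟨ha, P, hP1, hP⟩
      by_cases hQ1 : Q ∈ big T
      · exact Or.inl ⟨ha, Q, hQ1, hQ⟩
      · right
        rw [Set.mem_iUnion₂]
        refine ⟨(P, Q), ?_, ha, hP, hQ⟩
        rw [mem_filter, mem_product, mem_bx, mem_bx]
        exact ⟨⟨not_lt.1 hP1, not_lt.1 hQ1⟩, hPQ⟩
    have h6 := Set.ncard_le_ncard h5 ((D.fin H _).union
      (Set.Finite.biUnion (finite_toSet _) fun q _ => D.fin H _))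
    have h7 := h6.trans (Set.ncard_union_le _ _)
    have h8 : Set.ncard (⋃ q ∈ (bx T ×ˢ bx T).filter (fun q => q.1 ≠ q.2),
          {a | a ∈ D.S H ∧ D.Z a q.1 ∧ D.Z a q.2}) ≤
        ∑ q ∈ (bx T ×ˢ bx T).filter (fun q => q.1 ≠ q.2),
          Set.ncard {a | a ∈ D.S H ∧ D.Z a q.1 ∧ D.Z a q.2} :=
      Finset.set_ncard_biUnion_le _ _
    have h9 : ((∑ q ∈ (bx T ×ˢ bx T).filter (fun q => q.1 ≠ q.2),
          Set.ncard {a | a ∈ D.S H ∧ D.Z a q.1 ∧ D.Z a q.2} : ℕ) : ℝ) ≤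
        ((bx T ×ˢ bx T).card : ℝ) * (2 * (H : ℝ) + 1) ^ (D.n - 1) := by
      push_cast
      calc ∑ q ∈ (bx T ×ˢ bx T).filter (fun q => q.1 ≠ q.2),
          (Set.ncard {a | a ∈ D.S H ∧ D.Z a q.1 ∧ D.Z a q.2} : ℝ)
          ≤ ∑ _q ∈ (bx T ×ˢ bx T).filter (fun q => q.1 ≠ q.2),
            (2 * (H : ℝ) + 1) ^ (D.n - 1) :=
            sum_le_sum fun q hq => D.two q.1 q.2 (mem_filter.1 hq).2 H
        _ = (((bx T ×ˢ bx T).filter (fun q => q.1 ≠ q.2)).card : ℝ) *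
            (2 * (H : ℝ) + 1) ^ (D.n - 1) := by rw [sum_const, nsmul_eq_mul]
        _ ≤ _ := by
            apply mul_le_mul_of_nonneg_right _ (by positivity)
            exact_mod_cast card_le_card (filter_subset _ _)
    have h10 : (Set.ncard {a | a ∈ D.S H ∧ ∃ P Q, P ≠ Q ∧ D.Z a P ∧ D.Z a Q} : ℝ) ≤
        (Set.ncard {a | a ∈ D.S H ∧ ∃ P ∈ big T, D.Z a P} : ℝ) +
        ((∑ q ∈ (bx T ×ˢ bx T).filter (fun q => q.1 ≠ q.2),
          Set.ncard {a | a ∈ D.S H ∧ D.Z a q.1 ∧ D.Z a q.2} : ℕ) : ℝ) := by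
      exact_mod_cast h7.trans (Nat.add_le_add_left h8 _)
    unfold N2 N
    linarith
  have h5 : D.N2 H / (H : ℝ) ^ D.n ≤ D.N (big T) H / (H : ℝ) ^ D.n +
      ((bx T ×ˢ bx T).card : ℝ) * ((2 * (H : ℝ) + 1) ^ (D.n - 1) / (H : ℝ) ^ D.n) := by
    rw [← mul_div_assoc, ← add_div]
    gcongr
  have h6 : 0 ≤ D.N2 H / (H : ℝ) ^ D.n := by unfold N2; positivity
  rw [Real.dist_eq, sub_zero, abs_of_nonneg h6]
  linarith

end Data

end Pool.Agent.N656.LL
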