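import Pool.Agent.N656.LL.Vol
import Pool.Agent.N656.LL.Asm
import Pool.Agent.R414.DU.Fz

set_option autoImplicit false
set_option linter.unusedSectionVars false

/-! Polynomials with a prescribed leading form: the data of the limit law. -/

open Filter Topology Finset

namespace Pool.Agent.N656.LL

open Pool.Agent.R414.DN Pool.Agent.R414.DU

/-- the exponents `(i, j)` with `1 ≤ i + j < d` -/
abbrev J (d : ℕ) : Type := {m : Fin d × Fin d // 1 ≤ (m.1 : ℕ) + m.2 ∧ (m.1 : ℕ) + m.2 < d}

/-- the indices -/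
def eqv (e : ℕ) : Option (J (e + 1)) ≃ ↥(I e) where
  toFun o := match o with
    | none => ⟨(0, 0), by rw [mem_I]; exact ⟨Nat.zero_le _, le_rfl⟩⟩
    | some m => ⟨((m.1.1 : ℕ) + m.1.2, (m.1.1 : ℕ)), by rw [mem_I]; have := m.2.2; omega⟩
  invFun p := if h : p.1.1 = 0 then none else
    some ⟨(⟨p.1.2, by have := mem_I.1 p.2; omega⟩, ⟨p.1.1 - p.1.2, by have := mem_I.1 p.2; omega⟩),
      by
        have := mem_I.1 p.2
        show 1 ≤ p.1.2 + (p.1.1 - p.1.2) ∧ p.1.2 + (p.1.1 - p.1.2) < e + 1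
        omega⟩
  left_inv o := by
    rcases o with _ | m
    · simp
    · have h1 := m.2.1
      have h2 : ¬ ((m.1.1 : ℕ) + m.1.2 = 0) := by omega
      simp only [dif_neg h2]
      congr 1
      apply Subtype.ext
      apply Prod.ext
      · apply Fin.ext
        rfl
      · apply Fin.ext
        show (m.1.1 : ℕ) + m.1.2 - m.1.1 = m.1.2
        omega
  right_inv p := by
    have hp := mem_I.1 p.2
    by_cases h : p.1.1 = 0
    · simp only [dif_pos h]
      apply Subtype.ext
      apply Prod.ext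
      · exact h.symm
      · show 0 = p.1.2
        omega
    · simp only [dif_neg h]
      apply Subtype.ext
      apply Prod.ext
      · show p.1.2 + (p.1.1 - p.1.2) = p.1.1
        omega
      · rfl

/-- the values of the monomials -/
def mon (d : ℕ) (P : ℤ × ℤ) (m : J d) : ℤ := P.1 ^ (m.1.1 : ℕ) * P.2 ^ (m.1.2 : ℕ)

lemma card_J (e : ℕ) : Fintype.card (J (e + 1)) + 1 = MM e := by
  have h1 := Fintype.card_congr (eqv e)
  rw [Fintype.card_option] at h1
  exact h1

lemma card_J' {d : ℕ} (hd : 1 ≤ d) : Fintype.card (J d) = d * (d + 1) / 2 - 1 := by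
  obtain ⟨e, rfl⟩ : ∃ e, d = e + 1 := ⟨d - 1, by omega⟩
  have h1 := card_J e
  rw [MM_eq] at h1
  have h2 : (e + 1) * (e + 2) = (e + 1) * (e + 1 + 1) := by ring
  rw [h2] at h1
  omega

lemma Fv_opt {e : ℕ} (a : Cf e) (P : ℤ × ℤ) :
    Fv (co a) e P.1 P.2 = a (eqv e none) + ∑ m, a (eqv e (some m)) * mon (e + 1) P m := by
  rw [Fv_sum, ← (eqv e).sum_comp (fun p => a p * (P.1 ^ p.1.2 * P.2 ^ (p.1.1 - p.1.2))),
    Fintype.sum_option]
  congr 1
  · have h1 : (eqv e none).1 = (0, 0) := rfl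
    rw [h1]
    simp
  · refine sum_congr rfl fun m _ => ?_
    congr 1
    unfold mon
    have h1 : (eqv e (some m)).1 = ((m.1.1 : ℕ) + m.1.2, (m.1.1 : ℕ)) := rfl
    rw [h1]
    simp

lemma ncard_value {e : ℕ} (P : ℤ × ℤ) (s : ℤ) (H : ℕ) :
    Set.ncard {a | a ∈ ibox ↥(I e) H ∧ Fv (co a) e P.1 P.2 = s} =
      (cnt (mon (e + 1) P) s H).ncard := by
  refine Set.ncard_congr (fun a _ => fun m => a (eqv e (some m))) ?_ ?_ ?_
  · rintro a ⟨ha, hs⟩
    rw [mem_ibox] at ha
    refine ⟨fun m => ha _, ?_⟩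
    rw [Fv_opt] at hs
    rw [← hs, add_sub_cancel_right]
    exact ha _
  · rintro a b ⟨ha, hs⟩ ⟨hb, hs'⟩ hab
    rw [Fv_opt] at hs hs'
    have h1 : ∀ m, a (eqv e (some m)) = b (eqv e (some m)) := fun m => congrFun hab m
    have h2 : ∀ o, a (eqv e o) = b (eqv e o) := by
      intro o
      rcases o with _ | m
      · simp only [h1] at hs
        linarith
      · exact h1 m
    funext p
    have h3 := h2 ((eqv e).symm p)
    rwa [Equiv.apply_symm_apply] at h3
  · rintro b ⟨hb1, hb2⟩
    refine ⟨fun p => match (eqv e).symm p with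
      | none => s - ∑ m, b m * mon (e + 1) P m
      | some m => b m, ⟨?_, ?_⟩, ?_⟩
    · rw [mem_ibox]
      intro p
      split
      · exact hb2
      · exact hb1 _
    · rw [Fv_opt]
      simp only [Equiv.symm_apply_apply]
      ring
    · funext m
      simp only [Equiv.symm_apply_apply]

lemma zero_iff {e : ℕ} (φ : MvPolynomial (Fin 2) ℤ) (a : Cf e) (P : ℤ × ℤ) :
    MvPolynomial.eval ![P.1, P.2] (φ + poly a) = 0 ↔
      Fv (co a) e P.1 P.2 = -MvPolynomial.eval ![P.1, P.2] φ := by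
  rw [map_add, eval_poly]
  constructor <;> intro h <;> linarith

/-- the data -/
noncomputable def dat {e : ℕ} (he : 9 ≤ e) {φ : MvPolynomial (Fin 2) ℤ}
    (hφ : φ.IsHomogeneous (e + 1)) (hirr : Irreducible (MvPolynomial.map (Int.castRingHom ℚ) φ)) :
    Data where
  α := Cf e
  dec := inferInstance
  S H := ibox ↥(I e) H
  Z a P := MvPolynomial.eval ![P.1, P.2] (φ + poly a) = 0
  v P := vol fun m => (mon (e + 1) P m : ℝ)
  n := Fintype.card (J (e + 1))
  k := e - 2
  K := K2 (e + 1)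
  hn := by
    have h1 := card_J e
    have h2 := MM_pos e
    omega
  hk := by omega
  hK := by unfold K2; positivity
  hv P := vol_pos _
  lim P := by
    simp only [zero_iff]
    simp only [ncard_value]
    exact tendsto_cnt _ _
  two P Q hPQ H := by
    classical
    simp only [zero_iff]
    have h1 := card_two_values (e := e) (by omega) (H := H)
      (s := -MvPolynomial.eval ![P.1, P.2] φ) (s' := -MvPolynomial.eval ![Q.1, Q.2] φ)
      (x := P.1) (y := P.2) (x' := Q.1) (y' := Q.2) hPQ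
    have h2 : Set.ncard {a | a ∈ ibox ↥(I e) H ∧
        Fv (co a) e P.1 P.2 = -MvPolynomial.eval ![P.1, P.2] φ ∧
        Fv (co a) e Q.1 Q.2 = -MvPolynomial.eval ![Q.1, Q.2] φ} =
        ((ibox ↥(I e) H).filter fun a => Fv (co a) e P.1 P.2 = -MvPolynomial.eval ![P.1, P.2] φ ∧
          Fv (co a) e Q.1 Q.2 = -MvPolynomial.eval ![Q.1, Q.2] φ).card := by
      rw [← Set.ncard_coe_finset]
      congr 1
      ext a
      simp
    rw [h2]
    have h3 : Fintype.card (J (e + 1)) - 1 = MM e - 2 := by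
      have := card_J e
      omega
    rw [h3]
    exact_mod_cast h1
  tail T := by
    classical
    obtain ⟨H₀, h⟩ := upper_tail he hφ hirr T
    filter_upwards [eventually_ge_atTop H₀] with H hH
    have h1 := h H hH ((ibox ↥(I e) H).filter fun a => ∃ x y : ℤ,
      MvPolynomial.eval ![x, y] (φ + poly a) = 0 ∧ T < max x.natAbs y.natAbs)
      (filter_subset _ _) (fun a ha => (mem_filter.1 ha).2)
    have h2 : Set.ncard {a | a ∈ ibox ↥(I e) H ∧
        ∃ P : ℤ × ℤ, T < sz P ∧ MvPolynomial.eval ![P.1, P.2] (φ + poly a) = 0} =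
        ((ibox ↥(I e) H).filter fun a => ∃ x y : ℤ,
      MvPolynomial.eval ![x, y] (φ + poly a) = 0 ∧ T < max x.natAbs y.natAbs).card := by
      rw [← Set.ncard_coe_finset]
      congr 1
      ext a
      simp only [coe_filter, Set.mem_ofPred_eq]
      constructor
      · rintro ⟨h3, P, h4, h5⟩
        exact ⟨h3, P.1, P.2, h5, h4⟩
      · rintro ⟨h3, x, y, h5, h4⟩
        exact ⟨h3, (x, y), h4, h5⟩
    rw [h2]
    have h3 : Fintype.card (J (e + 1)) = MM e - 1 := by
      have := card_J e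
      omega
    rw [h3]
    exact h1

end Pool.Agent.N656.LL
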