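import Mathlib

set_option autoImplicit false
set_option linter.unusedSectionVars false

/-! Lattice points in the sections `{u ∈ [-1,1]^ι : |∑ u m c m| ≤ 1}` of the cube. -/

open MeasureTheory Filter Topology

namespace Pool.Agent.N656.LL

variable {ι : Type} [Fintype ι] [DecidableEq ι]

/-- the part of the cube where a linear form is at most one in absolute value -/
def K (c : ι → ℝ) : Set (ι → ℝ) := {u | (∀ m, |u m| ≤ 1) ∧ |∑ m, u m * c m| ≤ 1}

lemma K_closed (c : ι → ℝ) : IsClosed (K c) := by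
  have h1 : K c = (⋂ m, {u : ι → ℝ | |u m| ≤ 1}) ∩ {u | |∑ m, u m * c m| ≤ 1} := by
    ext u
    simp [K]
  rw [h1]
  apply IsClosed.inter
  · exact isClosed_iInter fun m => isClosed_le (by fun_prop) continuous_const
  · exact isClosed_le (by fun_prop) continuous_const

lemma K_convex (c : ι → ℝ) : Convex ℝ (K c) := by
  intro u hu v hv a b ha hb hab
  constructor
  · intro m
    have h1 := hu.1 m
    have h2 := hv.1 m
    calc |(a • u + b • v) m| = |a * u m + b * v m| := by simp
      _ ≤ |a * u m| + |b * v m| := abs_add_le _ _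
      _ = a * |u m| + b * |v m| := by rw [abs_mul, abs_mul, abs_of_nonneg ha, abs_of_nonneg hb]
      _ ≤ a * 1 + b * 1 := by gcongr
      _ = 1 := by rw [mul_one, mul_one, hab]
  · have h1 := hu.2
    have h2 := hv.2
    have e : ∑ m, (a • u + b • v) m * c m = a * (∑ m, u m * c m) + b * (∑ m, v m * c m) := by
      rw [Finset.mul_sum, Finset.mul_sum, ← Finset.sum_add_distrib]
      refine Finset.sum_congr rfl fun m _ => ?_
      simp only [Pi.add_apply, Pi.smul_apply, smul_eq_mul]
      ring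
    rw [e]
    calc |a * (∑ m, u m * c m) + b * (∑ m, v m * c m)|
        ≤ |a * (∑ m, u m * c m)| + |b * (∑ m, v m * c m)| := abs_add_le _ _
      _ = a * |∑ m, u m * c m| + b * |∑ m, v m * c m| := by
          rw [abs_mul, abs_mul, abs_of_nonneg ha, abs_of_nonneg hb]
      _ ≤ a * 1 + b * 1 := by gcongr
      _ = 1 := by rw [mul_one, mul_one, hab]

lemma K_sub (c : ι → ℝ) : K c ⊆ Metric.closedBall 0 1 := by
  intro u hu
  rw [mem_closedBall_zero_iff, pi_norm_le_iff_of_nonneg zero_le_one]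
  exact hu.1

lemma K_bounded (c : ι → ℝ) : Bornology.IsBounded (K c) :=
  Metric.isBounded_closedBall.subset (K_sub c)

lemma K_frontier (c : ι → ℝ) : volume (frontier (K c)) = 0 := (K_convex c).addHaar_frontier volume

/-- the volume -/
noncomputable def vol (c : ι → ℝ) : ℝ := volume.real (K c)

lemma vol_pos (c : ι → ℝ) : 0 < vol c := by
  obtain ⟨S, hS⟩ : ∃ S : ℝ, S = 1 + ∑ m, |c m| := ⟨_, rfl⟩
  have hS1 : 1 ≤ S := by
    rw [hS]
    have : 0 ≤ ∑ m, |c m| := Finset.sum_nonneg fun _ _ => abs_nonneg _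
    linarith
  have hsub : Metric.ball (0 : ι → ℝ) (1 / S) ⊆ K c := by
    intro u hu
    rw [mem_ball_zero_iff, pi_norm_lt_iff (by positivity)] at hu
    have h1 : 1 / S ≤ 1 := by
      rw [div_le_one (by linarith)]
      exact hS1
    constructor
    · intro m
      exact (hu m).le.trans h1
    · calc |∑ m, u m * c m| ≤ ∑ m, |u m * c m| := Finset.abs_sum_le_sum_abs _ _
        _ ≤ ∑ m, (1 / S) * |c m| := by
            refine Finset.sum_le_sum fun m _ => ?_
            rw [abs_mul]
            exact mul_le_mul_of_nonneg_right (hu m).le (abs_nonneg _)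
        _ = (∑ m, |c m|) / S := by rw [← Finset.mul_sum]; ring
        _ ≤ 1 := by
            rw [div_le_one (by linarith), hS]
            linarith
  have h2 : volume (Metric.ball (0 : ι → ℝ) (1 / S)) ≤ volume (K c) := measure_mono hsub
  have h3 : 0 < volume (Metric.ball (0 : ι → ℝ) (1 / S)) :=
    Metric.measure_ball_pos volume 0 (by positivity)
  unfold vol
  rw [measureReal_def]
  exact ENNReal.toReal_pos (h3.trans_le h2).ne' ((K_bounded c).measure_lt_top).ne

/-- the integer vectors of the box for which `s - ∑ b m c m` is in the box -/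
def cnt (c : ι → ℤ) (s : ℤ) (H : ℕ) : Set (ι → ℤ) :=
  {b | (∀ m, |b m| ≤ (H : ℤ)) ∧ |s - ∑ m, b m * c m| ≤ (H : ℤ)}

lemma cnt_finite (c : ι → ℤ) (s : ℤ) (H : ℕ) : (cnt c s H).Finite := by
  apply Set.Finite.subset (Set.finite_Icc (fun _ => -(H : ℤ)) (fun _ => (H : ℤ)))
  intro b hb
  rw [Set.mem_Icc]
  exact ⟨fun m => (abs_le.1 (hb.1 m)).1, fun m => (abs_le.1 (hb.1 m)).2⟩

open scoped Pointwise in
lemma tendsto_zero (c : ι → ℤ) :
    Tendsto (fun H : ℕ => ((cnt c 0 H).ncard : ℝ) / (H : ℝ) ^ Fintype.card ι) atTop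
      (𝓝 (vol fun m => (c m : ℝ))) := by
  have key := tendsto_card_div_pow_atTop_volume (K fun m => (c m : ℝ)) (K_bounded _)
    (K_closed _).measurableSet (K_frontier _)
  refine key.congr' ?_
  filter_upwards [eventually_ge_atTop 1] with n hn
  congr 2
  have hn0 : (n : ℝ) ≠ 0 := by
    have : (1 : ℝ) ≤ n := by exact_mod_cast hn
    linarith
  have hnp : (0 : ℝ) < n := by
    have : (1 : ℝ) ≤ n := by exact_mod_cast hn
    linarith
  have hb : K (fun m => (c m : ℝ)) ∩
      (n : ℝ)⁻¹ • (Submodule.span ℤ (Set.range (Pi.basisFun ℝ ι)) : Set (ι → ℝ)) =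
      (fun b : ι → ℤ => fun m => (n : ℝ)⁻¹ * (b m : ℝ)) '' cnt c 0 n := by
    ext u
    constructor
    · rintro ⟨hu, hL⟩
      rw [Set.mem_smul_set] at hL
      obtain ⟨w, hw, rfl⟩ := hL
      rw [SetLike.mem_coe, Module.Basis.mem_span_iff_repr_mem] at hw
      choose b hb using hw
      have hb' : ∀ m, w m = (b m : ℝ) := by
        intro m
        have := hb m
        simp only [Pi.basisFun_repr, algebraMap_int_eq, eq_intCast] at this
        exact this.symm
      refine ⟨b, ⟨?_, ?_⟩, ?_⟩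
      · intro m
        have h1 := hu.1 m
        simp only [Pi.smul_apply, smul_eq_mul] at h1
        rw [abs_mul, abs_of_nonneg (by positivity), hb' m, inv_mul_le_iff₀ hnp, mul_one] at h1
        exact_mod_cast h1
      · have h1 := hu.2
        simp only [Pi.smul_apply, smul_eq_mul, mul_assoc] at h1
        rw [← Finset.mul_sum, abs_mul, abs_of_nonneg (by positivity), inv_mul_le_iff₀ hnp,
          mul_one] at h1
        rw [zero_sub, abs_neg]
        simp only [hb'] at h1
        exact_mod_cast h1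
      · funext m
        simp [hb' m]
    · rintro ⟨b, hb, rfl⟩
      refine ⟨⟨?_, ?_⟩, ?_⟩
      · intro m
        have h1 : |((b m : ℤ) : ℝ)| ≤ n := by exact_mod_cast hb.1 m
        rw [abs_mul, abs_of_nonneg (by positivity), inv_mul_le_iff₀ hnp, mul_one]
        exact h1
      · have h1 := hb.2
        rw [zero_sub, abs_neg] at h1
        have h2 : |∑ m, ((b m : ℤ) : ℝ) * (c m : ℝ)| ≤ n := by exact_mod_cast h1
        simp only [mul_assoc]
        rw [← Finset.mul_sum, abs_mul, abs_of_nonneg (by positivity), inv_mul_le_iff₀ hnp, mul_one]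
        exact h2
      · rw [Set.mem_smul_set]
        refine ⟨fun m => (b m : ℝ), ?_, ?_⟩
        · rw [SetLike.mem_coe, Module.Basis.mem_span_iff_repr_mem]
          intro m
          exact ⟨b m, by simp⟩
        · funext m
          simp
  rw [hb, Nat.card_image_of_injective, Nat.card_coe_set_eq]
  intro b b' h
  funext m
  have h1 := congrFun h m
  simp only at h1
  have h2 := mul_left_cancel₀ (inv_ne_zero hn0) h1
  exact_mod_cast h2

lemma cnt_mono_up (c : ι → ℤ) (s : ℤ) (H : ℕ) :
    (cnt c s H).ncard ≤ (cnt c 0 (H + s.natAbs)).ncard := by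
  apply Set.ncard_le_ncard _ (cnt_finite _ _ _)
  intro b hb
  constructor
  · intro m
    have := hb.1 m
    push_cast
    have h0 := abs_nonneg s
    linarith
  · have := hb.2
    rw [zero_sub, abs_neg]
    push_cast
    have h1 : ∑ m, b m * c m = s - (s - ∑ m, b m * c m) := by ring
    rw [h1]
    have := abs_sub s (s - ∑ m, b m * c m)
    linarith

lemma cnt_mono_low (c : ι → ℤ) (s : ℤ) (H : ℕ) :
    (cnt c 0 H).ncard ≤ (cnt c s (H + s.natAbs)).ncard := by
  apply Set.ncard_le_ncard _ (cnt_finite _ _ _)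
  intro b hb
  constructor
  · intro m
    have := hb.1 m
    push_cast
    have h0 := abs_nonneg s
    linarith
  · have h2 := hb.2
    rw [zero_sub, abs_neg] at h2
    push_cast
    have := abs_sub s (∑ m, b m * c m)
    linarith

lemma tendsto_shift (n k : ℕ) :
    Tendsto (fun H : ℕ => (((H + k : ℕ) : ℝ) / (H : ℝ)) ^ n) atTop (𝓝 1) := by
  have h1 : Tendsto (fun H : ℕ => ((H + k : ℕ) : ℝ) / (H : ℝ)) atTop (𝓝 1) := by
    have h2 : Tendsto (fun H : ℕ => 1 + (k : ℝ) / (H : ℝ)) atTop (𝓝 (1 + 0)) :=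
      tendsto_const_nhds.add (tendsto_const_div_atTop_nhds_zero_nat (k : ℝ))
    rw [add_zero] at h2
    refine h2.congr' ?_
    filter_upwards [eventually_ge_atTop 1] with H hH
    have : (0 : ℝ) < H := by exact_mod_cast hH
    push_cast
    field_simp
  simpa using h1.pow n

/-- **The number of lattice points.** -/
theorem tendsto_cnt (c : ι → ℤ) (s : ℤ) :
    Tendsto (fun H : ℕ => ((cnt c s H).ncard : ℝ) / (H : ℝ) ^ Fintype.card ι) atTop
      (𝓝 (vol fun m => (c m : ℝ))) := by
  have h0 := tendsto_zero c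
  obtain ⟨k, hk⟩ : ∃ k, k = s.natAbs := ⟨_, rfl⟩
  -- it is enough to treat the shifted sequence
  rw [← tendsto_add_atTop_iff_nat k]
  have hup : Tendsto (fun H : ℕ => ((cnt c 0 (H + (k + k))).ncard : ℝ) /
      ((H + (k + k) : ℕ) : ℝ) ^ Fintype.card ι) atTop (𝓝 (vol fun m => (c m : ℝ))) :=
    h0.comp (tendsto_add_atTop_nat (k + k))
  have s1 := tendsto_shift (Fintype.card ι) (k + k)
  have s2 := tendsto_shift (Fintype.card ι) k
  have hup' : Tendsto (fun H : ℕ => ((cnt c 0 (H + (k + k))).ncard : ℝ) /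
      ((H + (k + k) : ℕ) : ℝ) ^ Fintype.card ι * (((H + (k + k) : ℕ) : ℝ) / (H : ℝ)) ^
        Fintype.card ι / ((((H + k : ℕ) : ℝ) / (H : ℝ)) ^ Fintype.card ι)) atTop
      (𝓝 (vol (fun m => (c m : ℝ)) * 1 / 1)) := (hup.mul s1).div s2 one_ne_zero
  have hlow' : Tendsto (fun H : ℕ => ((cnt c 0 H).ncard : ℝ) / (H : ℝ) ^ Fintype.card ι /
      ((((H + k : ℕ) : ℝ) / (H : ℝ)) ^ Fintype.card ι)) atTop
      (𝓝 (vol (fun m => (c m : ℝ)) / 1)) := h0.div s2 one_ne_zero
  rw [mul_one, div_one] at hup'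
  rw [div_one] at hlow'
  refine tendsto_of_tendsto_of_tendsto_of_le_of_le' hlow' hup' ?_ ?_
  · filter_upwards [eventually_ge_atTop 1] with H hH
    have hH0 : (0 : ℝ) < H := by exact_mod_cast hH
    have h1 := cnt_mono_low c s H
    rw [← hk] at h1
    have h2 : ((cnt c 0 H).ncard : ℝ) ≤ (cnt c s (H + k)).ncard := by exact_mod_cast h1
    have h3 : (0 : ℝ) < ((H + k : ℕ) : ℝ) := by exact_mod_cast (by omega : 0 < H + k)
    rw [div_pow, div_div, mul_div_cancel₀ _ (by positivity)]
    gcongr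
  · filter_upwards [eventually_ge_atTop 1] with H hH
    have hH0 : (0 : ℝ) < H := by exact_mod_cast hH
    have h1 := cnt_mono_up c s (H + k)
    rw [← hk, add_assoc] at h1
    have h2 : ((cnt c s (H + k)).ncard : ℝ) ≤ (cnt c 0 (H + (k + k))).ncard := by exact_mod_cast h1
    have h3 : (0 : ℝ) < ((H + k : ℕ) : ℝ) := by exact_mod_cast (by omega : 0 < H + k)
    have h4 : (0 : ℝ) < ((H + (k + k) : ℕ) : ℝ) := by exact_mod_cast (by omega : 0 < H + (k + k))
    have e : ((cnt c 0 (H + (k + k))).ncard : ℝ) /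
      ((H + (k + k) : ℕ) : ℝ) ^ Fintype.card ι * (((H + (k + k) : ℕ) : ℝ) / (H : ℝ)) ^
        Fintype.card ι / ((((H + k : ℕ) : ℝ) / (H : ℝ)) ^ Fintype.card ι) =
        ((cnt c 0 (H + (k + k))).ncard : ℝ) / ((H + k : ℕ) : ℝ) ^ Fintype.card ι := by
      rw [div_pow, div_pow]
      field_simp
    rw [e]
    gcongr

end Pool.Agent.N656.LL
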